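import Pool.Agent.H72.PRK.S2

/-!
# PRK, row SQLK (helper95): square roots modulo a monic polynomial over a complete ring
-/

set_option autoImplicit false

namespace Pool.PRK.SQ95

open Polynomial Pool.HYP Pool.AVS

section Comp

variable {A : Type} [CommRing A] (I : Ideal A)

theorem pi_complete [IsAdicComplete I A] (n : ℕ) : IsAdicComplete I (Fin n → A) := by
  rw [← AdicCompletion.of_bijective_iff]
  have h1 : Function.Bijective (AdicCompletion.of I A) := AdicCompletion.of_bijective I A
  have h2 : Function.Bijective (fun (x : Fin n → A) (i : Fin n) => AdicCompletion.of I A (x i)) :=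
    ⟨fun x y h => funext fun i => h1.1 (congrFun h i), fun y => by
      choose x hx using fun i => h1.2 (y i)
      exact ⟨x, funext hx⟩⟩
  have h3 : (fun (x : Fin n → A) (i : Fin n) => AdicCompletion.of I A (x i)) =
      AdicCompletion.piEquivFin I n ∘ AdicCompletion.of I (Fin n → A) := by
    funext x
    funext i
    simp only [Function.comp_apply, AdicCompletion.piEquivFin_apply]
    rfl
  rw [h3] at h2
  exact (Function.Bijective.of_comp_iff' (AdicCompletion.piEquivFin I n).bijective _).1 h2

theorem equiv_complete {M N : Type} [AddCommGroup M] [Module A M] [AddCommGroup N] [Module A N]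
    (e : M ≃ₗ[A] N) [IsAdicComplete I M] : IsAdicComplete I N := by
  rw [← AdicCompletion.of_bijective_iff]
  have h1 : Function.Bijective (AdicCompletion.of I M) := AdicCompletion.of_bijective I M
  have h : (AdicCompletion.of I N : N → _) =
      AdicCompletion.congr I e ∘ AdicCompletion.of I M ∘ e.symm := by
    funext x
    simp only [Function.comp_apply, AdicCompletion.congr_apply, AdicCompletion.map_of]
    simp
  rw [h]
  exact (AdicCompletion.congr I e).bijective.comp (h1.comp e.symm.bijective)

theorem adj_hensel [IsAdicComplete I A] (f : A[X]) (hf : f.Monic) :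
    HenselianRing (AdjoinRoot f) (I.map (algebraMap A (AdjoinRoot f))) := by
  have h0 := pi_complete I f.natDegree
  have e : (Fin f.natDegree → A) ≃ₗ[A] AdjoinRoot f :=
    (AdjoinRoot.powerBasis' hf).basis.equivFun.symm
  have h1 : IsAdicComplete I (AdjoinRoot f) := equiv_complete I e
  have h2 : IsAdicComplete (I.map (algebraMap A (AdjoinRoot f))) (AdjoinRoot f) :=
    { toIsHausdorff := IsHausdorff.map_algebraMap_iff.2 h1.toIsHausdorff
      toIsPrecomplete := IsPrecomplete.map_algebraMap_iff.2 h1.toIsPrecomplete }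
  exact IsAdicComplete.henselianRing _ _

end Comp

section Rd

variable {L : Type} [Field L] (O : ValuationSubring L)

theorem rd_add (p q : O[X]) : rd O (p + q) = rd O p + rd O q := Polynomial.map_add _

theorem rd_sub (p q : O[X]) : rd O (p - q) = rd O p - rd O q := Polynomial.map_sub _

theorem rd_mul (p q : O[X]) : rd O (p * q) = rd O p * rd O q := Polynomial.map_mul _

theorem rd_pow (p : O[X]) (n : ℕ) : rd O (p ^ n) = rd O p ^ n := Polynomial.map_pow _ _

theorem rd_one : rd O (1 : O[X]) = 1 := Polynomial.map_one _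

theorem rd_surj : Function.Surjective (fun p : O[X] => rd O p) :=
  Polynomial.map_surjective _ IsLocalRing.residue_surjective

theorem rd_zero_iff (t : O[X]) :
    rd O t = 0 ↔ t ∈ (IsLocalRing.maximalIdeal O).map (C : O →+* O[X]) := by
  rw [Ideal.mem_map_C_iff, Polynomial.ext_iff]
  constructor
  · intro h n
    have := h n
    rw [Polynomial.coeff_map, Polynomial.coeff_zero] at this
    exact (IsLocalRing.residue_eq_zero_iff _).1 this
  · intro h n
    rw [Polynomial.coeff_map, Polynomial.coeff_zero]
    exact (IsLocalRing.residue_eq_zero_iff _).2 (h n)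

theorem two_unit {π : L} (hL : Loc L O π) : IsUnit (2 : O) := by
  have h20 := hL.two
  refine IsUnit.of_mul_eq_one (⟨(2 : L)⁻¹, h20.2⟩ : O) ?_
  apply Subtype.ext
  have : ((2 : O) : L) = (2 : L) := rfl
  change ((2 : O) : L) * (2 : L)⁻¹ = 1
  rw [this, mul_inv_cancel₀ h20.1]

end Rd

theorem sqlk : SQLKStmt := by
  intro L _ O π hL hc f p s hf hcop hdvd
  set m := IsLocalRing.maximalIdeal O with hm
  have hH := adj_hensel m f hf
  set J : Ideal (AdjoinRoot f) := m.map (algebraMap O (AdjoinRoot f)) with hJ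
  -- elements of `J`
  have hJC : J = (m.map (C : O →+* O[X])).map (AdjoinRoot.mk f) := by
    rw [Ideal.map_map]
    rfl
  have hrd : ∀ t : O[X], rd O t = 0 ↔ t ∈ m.map (C : O →+* O[X]) := rd_zero_iff O
  have hsur := rd_surj O
  have hmem : ∀ t : O[X], rd O f ∣ rd O t → AdjoinRoot.mk f t ∈ J := by
    intro t ⟨q, hq⟩
    obtain ⟨q', hq'⟩ := hsur q
    have h1 : rd O (t - f * q') = 0 := by
      have h := hq'
      simp only at h
      rw [rd_sub, rd_mul, hq, h, sub_self]
    have h2 := Ideal.mem_map_of_mem (AdjoinRoot.mk f) ((hrd _).1 h1)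
    rw [← hJC] at h2
    rwa [map_sub, map_mul, AdjoinRoot.mk_self, zero_mul, sub_zero] at h2
  -- the point modulo `J`
  have h1 : (X ^ 2 - C (AdjoinRoot.mk f p) : (AdjoinRoot f)[X]).eval (AdjoinRoot.mk f s) ∈ J := by
    have := hmem (p - s ^ 2) (by
      rw [rd_sub, rd_pow]
      exact hdvd)
    rw [map_sub, map_pow] at this
    have h2 := J.neg_mem this
    rw [neg_sub] at h2
    simpa using h2
  have h2u : IsUnit (2 : O) := two_unit O hL
  have hsu : IsUnit (Ideal.Quotient.mk J (AdjoinRoot.mk f s)) := by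
    obtain ⟨a, b, hab⟩ := hcop
    obtain ⟨a', ha'⟩ := hsur a
    obtain ⟨b', hb'⟩ := hsur b
    have h3 : AdjoinRoot.mk f (a' * p - 1) ∈ J := hmem _ ⟨-b, by
      have h := ha'
      simp only at h
      rw [rd_sub, rd_mul, h, rd_one, ← hab]
      ring⟩
    have h4 : AdjoinRoot.mk f (p - s ^ 2) ∈ J := hmem _ (by
      rw [rd_sub, rd_pow]
      exact hdvd)
    rw [map_sub, map_mul, map_one] at h3
    rw [map_sub, map_pow] at h4
    have h5 := (Ideal.Quotient.mk_eq_mk_iff_sub_mem _ _).2 h3
    have h6 := (Ideal.Quotient.mk_eq_mk_iff_sub_mem _ _).2 h4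
    rw [map_mul, map_one] at h5
    rw [map_pow] at h6
    rw [h6] at h5
    refine IsUnit.of_mul_eq_one (Ideal.Quotient.mk J (AdjoinRoot.mk f s) *
      Ideal.Quotient.mk J (AdjoinRoot.mk f a')) ?_
    rw [← h5]
    ring
  have hder : IsUnit (Ideal.Quotient.mk J
      ((derivative (X ^ 2 - C (AdjoinRoot.mk f p) : (AdjoinRoot f)[X])).eval
        (AdjoinRoot.mk f s))) := by
    have h7 : (derivative (X ^ 2 - C (AdjoinRoot.mk f p) : (AdjoinRoot f)[X])).eval
        (AdjoinRoot.mk f s) = algebraMap O (AdjoinRoot f) 2 * AdjoinRoot.mk f s := by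
      rw [map_ofNat, derivative_sub, derivative_C, sub_zero, derivative_pow, derivative_X]
      simp
    rw [h7, map_mul]
    exact IsUnit.mul ((h2u.map _).map _) hsu
  have hmon : (X ^ 2 - C (AdjoinRoot.mk f p) : (AdjoinRoot f)[X]).Monic :=
    monic_X_pow_sub_C _ (by norm_num)
  obtain ⟨a, ha, has⟩ := hH.is_henselian _ hmon _ h1 hder
  rw [hJC] at has
  obtain ⟨t, ht, hta⟩ := (Ideal.mem_map_iff_of_surjective _ AdjoinRoot.mk_surjective).1 has
  refine ⟨s + t, ?_, ?_⟩
  · rw [rd_add, (hrd t).2 ht, add_zero]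
  · rw [← AdjoinRoot.mk_eq_zero, map_sub, map_pow, map_add, hta]
    have h8 : a ^ 2 = AdjoinRoot.mk f p := by
      have := ha
      rw [IsRoot.def] at this
      simp only [eval_sub, eval_pow, eval_X, eval_C] at this
      exact sub_eq_zero.1 this
    rw [add_sub_cancel, h8, sub_self]

end Pool.PRK.SQ95

namespace Pool.PRK

theorem sqlk : SQLKStmt := SQ95.sqlk

end Pool.PRK
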