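import Pool.Agent.H95.PRK.SQLK
import Pool.Agent.H70.HYP.NMU

/-!
# PRK, row LULK (helper95): units of square norm are classes of divisors
-/

set_option autoImplicit false

namespace Pool.PRK.SQ95

open Polynomial Pool.HYP Pool.AVS

section Cop

variable {L : Type} [Field L] (O : ValuationSubring L)

/-- A polynomial which is a unit modulo the maximal ideal and `f` is a unit modulo `f`. -/
theorem cop_of_rd (hc : IsAdicComplete (IsLocalRing.maximalIdeal O) O) (f p : O[X])
    (hf : f.Monic) (hcop : IsCoprime (rd O p) (rd O f)) : IsCoprime p f := by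
  have hH := adj_hensel (IsLocalRing.maximalIdeal O) f hf
  set J : Ideal (AdjoinRoot f) := (IsLocalRing.maximalIdeal O).map
    (algebraMap O (AdjoinRoot f)) with hJ
  have hJC : J = ((IsLocalRing.maximalIdeal O).map (C : O →+* O[X])).map (AdjoinRoot.mk f) := by
    rw [Ideal.map_map]
    rfl
  have hsur := rd_surj O
  obtain ⟨a, b, hab⟩ := hcop
  obtain ⟨a', ha'⟩ := hsur a
  obtain ⟨b', hb'⟩ := hsur b
  simp only at ha' hb'
  have h1 : rd O (a' * p - 1 + b' * f) = 0 := by
    rw [rd_add, rd_sub, rd_mul, rd_mul, ha', hb', rd_one, ← hab]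
    ring
  have h2 := Ideal.mem_map_of_mem (AdjoinRoot.mk f) ((rd_zero_iff O _).1 h1)
  rw [← hJC, map_add, map_sub, map_mul, map_mul, map_one, AdjoinRoot.mk_self, mul_zero,
    add_zero] at h2
  have h3 := (Ideal.Quotient.mk_eq_mk_iff_sub_mem _ _).2 h2
  rw [map_one] at h3
  have h4 : IsUnit (Ideal.Quotient.mk J (AdjoinRoot.mk f a' * AdjoinRoot.mk f p)) := by
    rw [h3]
    exact isUnit_one
  have h5 : IsLocalHom (Ideal.Quotient.mk J) := isLocalHom_of_le_jacobson_bot J hH.jac
  have h6 := h5.map_nonunit _ h4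
  have h7 := isUnit_of_mul_isUnit_right h6
  obtain ⟨q, hq⟩ := h7.exists_left_inv
  obtain ⟨q', rfl⟩ := AdjoinRoot.mk_surjective q
  rw [← map_mul, ← map_one (AdjoinRoot.mk f), ← sub_eq_zero, ← map_sub,
    AdjoinRoot.mk_eq_zero] at hq
  obtain ⟨r, hr⟩ := hq
  exact ⟨q', -r, by linear_combination hr⟩

theorem sq_mem {c : L} (h : c * c ∈ O) : c ∈ O := by
  rcases O.mem_or_inv_mem c with h1 | h1
  · exact h1
  · by_cases h0 : c = 0
    · rw [h0]
      exact O.zero_mem
    · have h2 := O.mul_mem _ _ h h1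
      rwa [mul_assoc, mul_inv_cancel₀ h0, mul_one] at h2

/-- Square norms reduce to square norms. -/
theorem nsq_rd (f p : O[X]) (hf : f.Monic) (h : NSq (oL O f) (oL O p)) :
    NSq (rd O f) (rd O p) := by
  unfold NSq at h ⊢
  have h1 : Algebra.norm L (AdjoinRoot.mk (oL O f) (oL O p)) =
      algebraMap O L (Algebra.norm O (AdjoinRoot.mk f p)) :=
    NMU.norm_map (algebraMap O L) f p hf
  have h2 : Algebra.norm (IsLocalRing.ResidueField O) (AdjoinRoot.mk (rd O f) (rd O p)) =
      IsLocalRing.residue O (Algebra.norm O (AdjoinRoot.mk f p)) :=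
    NMU.norm_map (IsLocalRing.residue O) f p hf
  rw [h1] at h
  rw [h2]
  obtain ⟨c, hc⟩ := h
  have h3 : c ∈ O := by
    apply sq_mem
    rw [← hc]
    exact (Algebra.norm O (AdjoinRoot.mk f p)).2
  have h4 : Algebra.norm O (AdjoinRoot.mk f p) = (⟨c, h3⟩ : O) * ⟨c, h3⟩ := Subtype.ext hc
  rw [h4, map_mul]
  exact ⟨_, rfl⟩

end Cop

theorem lulk (hFFD : FFDStmt) : LULKStmt := by
  intro L _ O π hL hc f p hf hodd hcop hN
  have hN' := nsq_rd O f p hf hN
  have : Finite (IsLocalRing.ResidueField O) := hL.fin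
  have h2 : (2 : IsLocalRing.ResidueField O) ≠ 0 := by
    have h := ((two_unit O hL).map (IsLocalRing.residue O)).ne_zero
    rwa [map_ofNat] at h
  have hdeg : (rd O f).natDegree = f.natDegree := hf.natDegree_map _
  obtain ⟨u, w, v, hu, huf, hud, hvf, hfd⟩ := hFFD (IsLocalRing.ResidueField O) h2 (rd O f)
    (rd O p) (hf.map _) (by rw [hdeg]; exact hodd) hcop hN'
  have hlift : u ∈ lifts (IsLocalRing.residue O) := by
    obtain ⟨q, hq⟩ := Polynomial.map_surjective (IsLocalRing.residue O)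
      IsLocalRing.residue_surjective u
    exact (mem_lifts _).2 ⟨q, hq⟩
  obtain ⟨U, hU1, hU2, hU3⟩ := lifts_and_degree_eq_and_monic hlift hu
  obtain ⟨W, hW⟩ := rd_surj O w
  simp only at hW
  have hU1' : rd O U = u := hU1
  obtain ⟨W', -, hW'⟩ := sqlk L O π hL hc U f W hU3 (by rw [hU1']; exact huf.symm) (by
    rw [hU1', hW, ← neg_sub]
    exact (dvd_neg).2 hud)
  -- the square root modulo `f`
  have hnd : U.natDegree = u.natDegree := natDegree_eq_of_degree_eq hU2
  set kU : O[X] := (-1) ^ U.natDegree * U with hkU0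
  have hneg : rd O (-1 : O[X]) = -1 := by
    change Polynomial.map _ (-1) = -1
    rw [Polynomial.map_neg, Polynomial.map_one]
  have hkU : rd O kU = kap u := by
    rw [hkU0, rd_mul, rd_pow, hU1', hnd, hneg]
    rfl
  clear_value kU
  obtain ⟨x, y, hxy⟩ := hvf
  obtain ⟨x', hx'⟩ := rd_surj O x
  simp only at hx'
  obtain ⟨D, hD⟩ := hfd
  have hkc : IsCoprime (kap u) (rd O f) := by
    unfold Pool.HYP.kap
    exact (isCoprime_mul_unit_left_left ((isUnit_one.neg).pow _) _ _).2 huf
  obtain ⟨S, -, hS⟩ := sqlk L O π hL hc f (kU * p) (p * x') hf (by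
    rw [rd_mul, hkU]
    exact hkc.mul_left hcop) (by
    rw [rd_mul, rd_mul, hkU, hx']
    refine ⟨rd O p * (D * x ^ 2 + y * (x * v + 1) * kap u), ?_⟩
    linear_combination rd O p * x ^ 2 * hD - rd O p * (x * v + 1) * kap u * hxy)
  obtain ⟨q, r, hqr⟩ := cop_of_rd O hc f p hf hcop
  obtain ⟨E, hE⟩ := hS
  have hUf : IsCoprime U f := cop_of_rd O hc f U hf (by rw [hU1']; exact huf)
  have hdU : (oL O U).natDegree = U.natDegree := hU3.natDegree_map _
  refine ⟨oL O U, oL O W', oL O (q * S), hU3.map _, hUf.map (mapRingHom (algebraMap O L)), ?_, ?_⟩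
  · obtain ⟨G, hG⟩ := hW'
    refine ⟨- oL O G, ?_⟩
    have h := congrArg (oL O) hG
    simp only [oL, Polynomial.map_sub, Polynomial.map_mul, Polynomial.map_pow] at h ⊢
    linear_combination -h
  · rw [hdU]
    have h1 : f ∣ kU - p * (q * S) ^ 2 := by
      refine ⟨q ^ 2 * p * E + r * (q * p + 1) * kU, ?_⟩
      linear_combination q ^ 2 * p * hE - (q * p + 1) * kU * hqr
    obtain ⟨G, hG⟩ := h1
    refine ⟨oL O G, ?_⟩
    have h := congrArg (oL O) hG
    rw [hkU0] at h
    simp only [oL, Polynomial.map_sub, Polynomial.map_mul, Polynomial.map_pow, Polynomial.map_neg,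
      Polynomial.map_one] at h ⊢
    exact h

end Pool.PRK.SQ95

namespace Pool.PRK

theorem lulk (hFFD : FFDStmt) : LULKStmt := SQ95.lulk hFFD

end Pool.PRK
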